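import Pool.Agent.MP_ed9623_an.H77.SpecX

/-! A majorant sequence for the recursion `rc`. -/

namespace Pool.Agent.MP_ed9623_an.H77

namespace Maj

theorem rcr (n : ℕ) : (n + 2) * catalan (n + 1) = (4 * n + 2) * catalan n := by
  have h1 := succ_mul_catalan_eq_centralBinom (n + 1)
  have h2 := succ_mul_catalan_eq_centralBinom n
  have h3 := Nat.succ_mul_centralBinom_succ n
  rw [← h1, ← h2] at h3
  refine Nat.eq_of_mul_eq_mul_left (Nat.succ_pos n) ?_
  simp only [Nat.succ_eq_add_one]
  linarith

theorem up (n : ℕ) : (catalan (n + 1) : ℝ) ≤ 4 * catalan n := by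
  have h : catalan (n + 1) ≤ 4 * catalan n :=
    Nat.le_of_mul_le_mul_left (c := n + 2) (by rw [rcr]; nlinarith) (by omega)
  exact_mod_cast h

theorem mono (n : ℕ) : (catalan (n - 1) : ℝ) ≤ catalan n := by
  rcases n with _ | n
  · rfl
  · have h : catalan n ≤ catalan (n + 1) :=
      Nat.le_of_mul_le_mul_left (c := n + 2) (by rw [rcr]; nlinarith) (by omega)
    exact_mod_cast h

theorem pw (n : ℕ) : (catalan n : ℝ) ≤ 4 ^ n := by
  induction n with
  | zero => simp
  | succ n ih => rw [pow_succ]; linarith [up n]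

theorem conv (n : ℕ) : ∑ k ∈ Finset.range (n + 1), (catalan k : ℝ) * catalan (n - k)
    = catalan (n + 1) := by
  rw [catalan_succ', Finset.Nat.sum_antidiagonal_eq_sum_range_succ_mk]
  push_cast
  rfl

theorem conv' (n : ℕ) : ∑ k ∈ Finset.range n, (catalan k : ℝ) * catalan (n - k - 1)
    ≤ catalan n := by
  rcases n with _ | n
  · simp
  · rw [← conv]
    refine le_of_eq (Finset.sum_congr rfl fun k _ => ?_)
    rw [Nat.sub_right_comm, Nat.add_sub_cancel]

/-- The majorant. -/
noncomputable def bb (e δ M : ℝ) (k : ℕ) : ℝ :=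
  (if k = 0 then e else δ) * M ^ k * k.factorial * catalan (k - 1)

theorem ch {n k : ℕ} (h : k ≤ n) :
    (n.choose k : ℝ) * k.factorial * (n - k).factorial = n.factorial := by
  exact_mod_cast Nat.choose_mul_factorial_mul_factorial h

end Maj

open Maj in
theorem rowMaj : OfMaj := by
  intro K e hK he
  obtain ⟨δ, hδ, hδ1, hKδ⟩ : ∃ δ : ℝ, 0 < δ ∧ δ ≤ 1 ∧ K * δ ≤ 1 / 2 := by
    refine ⟨1 / (2 * (K + 1)), by positivity, ?_, ?_⟩
    · rw [div_le_one (by positivity)]; linarith
    · rw [mul_one_div, div_le_div_iff₀ (by positivity) (by positivity)]; linarith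
  obtain ⟨M, hM, hKM⟩ : ∃ M : ℝ, 0 ≤ M ∧ K * (e + 4 * (e * e)) = δ * M / 2 :=
    ⟨2 * (K * (e + 4 * (e * e))) / δ, by positivity, by field_simp⟩
  have h0 : ∀ k, 0 ≤ bb e δ M k := fun k => by
    unfold bb; split_ifs <;> positivity
  have h1 : ∀ k, bb e δ M k ≤ e * M ^ k * k.factorial * catalan k := fun k => by
    have : (if k = 0 then e else δ) ≤ e := by split_ifs <;> linarith
    have := mono k
    unfold bb
    gcongr
  refine ⟨4 * M, bb e δ M, by simp [bb], fun k => ⟨h0 k, (h1 k).trans ?_⟩, fun n => ?_⟩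
  · have := pw k
    calc _ ≤ e * M ^ k * k.factorial * 4 ^ k := by gcongr
      _ = _ := by rw [mul_pow]; ring
  have hf : (((n + 1).factorial : ℕ) : ℝ) = (n + 1) * n.factorial := by
    rw [Nat.factorial_succ]; push_cast; rfl
  set X : ℝ := M ^ n * (n + 1).factorial * catalan n with hX
  have X0 : 0 ≤ X := by positivity
  have a1 : (n + 1) * bb e δ M n ≤ e * X := by
    calc _ ≤ (n + 1) * (e * M ^ n * n.factorial * catalan n) := by gcongr; exact h1 n
      _ = _ := by rw [hX, hf]; ring
  have a2 : ∑ k ∈ Finset.range n, ((n + 1).choose (k + 1) : ℝ)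
      * (bb e δ M (k + 1) * bb e δ M (n - k)) ≤ δ * δ * M * X := by
    calc _ = ∑ k ∈ Finset.range n, δ * δ * M ^ (n + 1) * (n + 1).factorial
          * ((catalan k : ℝ) * catalan (n - k - 1)) := Finset.sum_congr rfl fun k hk => by
          have hk' := Finset.mem_range.1 hk
          have c := ch (n := n + 1) (k := k + 1) (by omega)
          have p : M ^ (n + 1) = M ^ (k + 1) * M ^ (n - k) := by
            rw [← pow_add]; congr 1; omega
          rw [Nat.add_sub_add_right] at c
          rw [← c, p]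
          unfold bb
          rw [if_neg (by omega), if_neg (by omega), Nat.add_sub_cancel]
          ring
      _ ≤ δ * δ * M ^ (n + 1) * (n + 1).factorial * catalan n := by
          rw [← Finset.mul_sum]; gcongr; exact conv' n
      _ = _ := by rw [hX]; ring
  have a3 : (n + 1) * ∑ k ∈ Finset.range (n + 1), (n.choose k : ℝ)
      * (bb e δ M k * bb e δ M (n - k)) ≤ 4 * (e * e) * X := by
    have : ∑ k ∈ Finset.range (n + 1), (n.choose k : ℝ) * (bb e δ M k * bb e δ M (n - k))
        ≤ e * e * M ^ n * n.factorial * (4 * catalan n) := by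
      calc _ ≤ ∑ k ∈ Finset.range (n + 1), e * e * M ^ n * n.factorial
            * ((catalan k : ℝ) * catalan (n - k)) := Finset.sum_le_sum fun k hk => by
            have hk' := Nat.lt_succ_iff.1 (Finset.mem_range.1 hk)
            have p : M ^ n = M ^ k * M ^ (n - k) := by rw [← pow_add]; congr 1; omega
            calc _ ≤ (n.choose k : ℝ) * ((e * M ^ k * k.factorial * catalan k)
                  * (e * M ^ (n - k) * (n - k).factorial * catalan (n - k))) := by
                  have := h0 (n - k)
                  gcongr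
                  exacts [h1 k, h1 (n - k)]
              _ = _ := by rw [← ch hk', p]; ring
        _ ≤ _ := by rw [← Finset.mul_sum, conv]; gcongr; exact up n
    calc _ ≤ (n + 1) * (e * e * M ^ n * n.factorial * (4 * catalan n)) := by gcongr
      _ = _ := by rw [hX, hf]; ring
  have a4 : bb e δ M (n + 1) = δ * M * X := by
    unfold bb
    rw [if_neg (by omega), Nat.add_sub_cancel, hX]; ring
  rw [a4]
  unfold rc
  have b1 : K * δ * (δ * M * X) ≤ 1 / 2 * (δ * M * X) := by gcongr
  calc _ ≤ K * (e * X + δ * δ * M * X + 4 * (e * e) * X) := by gcongr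
    _ = K * (e + 4 * (e * e)) * X + K * δ * (δ * M * X) := by ring
    _ ≤ _ := by rw [hKM]; linarith

end Pool.Agent.MP_ed9623_an.H77
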