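import Pool.Agent.MP_ed9623_an.H77.SpecW

/-! The boundary vorticity is constant. -/

open MeasureTheory Filter Topology Set
open scoped ContDiff

namespace Pool.Agent.MP_ed9623_an.H77

open H64

namespace Tr

variable {γ : ℝ → ℝ} {r : ℝ} {W G f g : P → ℝ} {d dY dS dYY dYS : Fin 2 → P → ℝ} {O : Set P}

theorem wd_g (hγ : Gam γ) (h : WD O (ee 1) f g) (hf : M2 f) (hg : M2 g) :
    WD O (ee 1) (fun p => γ p.1 * f p) fun p => γ p.1 * g p := by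
  simpa only [hγ.pd1, zero_mul, add_zero] using h.smul hf hg hγ.smP

theorem one (hZ : ZtS) (hγ : Gam γ) (hr : 0 < r) (hW : H1 γ W d) (hv : Van (Q r \ Qp 0 r) W)
    (hG : M2 G) (hG' : Van (Q r \ Qp 0 r) G) (h : R3 γ r d G dY dS dYY dYS) :
    ∃ t₀ t₁ T : ℝ → ℝ, Trc r (d 0) (dS 0) t₀ ∧ Trc r (d 1) (dS 1) t₁ ∧
      IntegrableOn T (Ioo (-r) r) ∧ (∀ᵐ y, y ∈ Ioo (-r) r →
        t₀ y + deriv γ y * t₁ y = 0 ∧ T y = (1 + deriv γ y ^ 2) * t₁ y) ∧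
      ∀ ζ, Test (Q r) ζ → ∑ i, ∫ x, d i x * dd γ i ζ x =
        (∫ x, G x * ζ x) - ∫ y in Ioo (-r) r, T y * ζ (y, 0) := by
  have m0 := hW.md 0
  have m1 := hW.md 1
  have s0 := (h.m 0).2.1
  have s1 := (h.m 1).2.1
  have g0 := m0.gmul hγ.deriv
  have g1 := m1.gmul hγ.deriv
  have v := (hW.mono (subset_univ _)).van_low hγ hv
  obtain ⟨t₀, -, a0, -⟩ := (hZ r _ _ hr m0 s0).1 (h.s 0)
  obtain ⟨t₁, -, a1, -⟩ := (hZ r _ _ hr m1 s1).1 (h.s 1)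
  have mN := m1.sub g0
  have sN := s1.sub (s0.gmul hγ.deriv)
  obtain ⟨T, mT, aT, hT⟩ := (hZ r _ _ hr mN sN).1
    ((h.s 1).sub (wd_g hγ.deriv (h.s 0) m0 s0) m1 s1 g0 (s0.gmul hγ.deriv))
  have b1 := (hZ r _ _ hr m1 s1).2.2.2.2.1 _ _ _ _ (fun _ => 1) (fun y => -deriv γ y) s0 a1 a0
  simp only [one_mul, neg_mul, ← sub_eq_add_neg] at b1
  have b2 := (hZ r _ _ hr mN sN).2.2.1 _ _ aT b1
  have b3 := (hZ r _ _ hr m0 s0).2.2.2.2.1 _ _ _ _ (fun _ => 1) (deriv γ) s1 a0 a1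
  simp only [one_mul] at b3
  have c1 : WD (Q r) (ee 1) (fun p => d 0 p + deriv γ p.1 * d 1 p) (dY 1) :=
    ((hW.wd0 hγ).mono (subset_univ _)).comm (hW.wd1.mono (subset_univ _)) (h.y 1)
  have c2 := (hZ r _ _ hr (m0.add g1) (h.m 1).1).2.1 c1 ((v 0).add ((v 1).smul _))
  have sM := s0.add (s1.gmul hγ.deriv)
  have c3 := (c1.mono (Qp_sub 0 r)).uniq (isOpen_Qp 0 r)
    ((h.s 0).add (wd_g hγ.deriv (h.s 1) m1 s1) m0 s0 g1 (s1.gmul hγ.deriv)) (h.m 1).1 sM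
  have c4 := (hZ r _ _ hr (m0.add g1) sM).2.2.1 _ _ b3
    ((hZ r _ _ hr (m0.add g1) (h.m 1).1).2.2.2.1 _ _ _ c2 (c3.mono fun p a b => ⟨rfl, a b⟩))
  refine ⟨t₀, t₁, T, a0, a1, mT.integrable one_le_two, ?_, fun ζ hζ => ?_⟩
  · filter_upwards [b2, c4] with y e1 e2 hy
    refine ⟨e2 hy, ?_⟩
    linear_combination e1 hy - deriv γ y * e2 hy
  · have i1 := mN.int_mul (hζ.pd (ee 1)).m2
    have i2 := (h.m 0).1.int_mul hζ.m2
    have i3 := hG.int_mul hζ.m2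
    have e1 : ∑ i, ∫ x, d i x * dd γ i ζ x = (∫ x, d 0 x * pd (ee 0) ζ x) +
        ∫ x, (d 1 x - deriv γ x.1 * d 0 x) * pd (ee 1) ζ x := by
      rw [Fin.sum_univ_two, ← integral_add (m0.int_mul (hζ.dd hγ 0).m2) (m1.int_mul (hζ.dd hγ 1).m2),
        ← integral_add (m0.int_mul (hζ.pd _).m2) i1]
      refine integral_congr_ae (Eventually.of_forall fun x => ?_)
      simp only [dd0, dd1]
      ring
    have e2 : ∫ x, ((d 1 x - deriv γ x.1 * d 0 x) * pd (ee 1) ζ x - dY 0 x * ζ x - G x * ζ x) =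
        ∫ x in Qp 0 r, ((d 1 x - deriv γ x.1 * d 0 x) * pd (ee 1) ζ x +
          (dS 1 x - deriv γ x.1 * dS 0 x) * ζ x) := by
      rw [← integral_indicator (isOpen_Qp 0 r).measurableSet]
      refine integral_congr_ae ?_
      filter_upwards [h.eq, v 0, v 1, hG', (h.y 0).van_low (h.m 0).1 (v 0)] with x k1 k2 k3 k4 k5
      by_cases hx : x ∈ Qp 0 r
      · rw [indicator_of_mem hx]
        linear_combination -ζ x * k1 hx
      · rw [indicator_of_notMem hx]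
        by_cases hq : x ∈ Q r
        · rw [k2 ⟨hq, hx⟩, k3 ⟨hq, hx⟩, k4 ⟨hq, hx⟩, k5 ⟨hq, hx⟩]
          ring
        · rw [hζ.off hq, (hζ.pd _).off hq]
          ring
    rw [integral_sub (i1.sub' i2) i3, integral_sub i1 i2, hT ζ hζ] at e2
    rw [e1, h.y 0 ζ hζ]
    linarith

theorem ext (hr : 0 < r) {β : ℝ → ℝ} (h1 : ContDiff ℝ ∞ β) (h2 : HasCompactSupport β)
    (h3 : tsupport β ⊆ Ioo (-r) r) : ∃ h, Test (Q r) h ∧
      ∀ y, pd (ee 0) h (y, 0) = deriv β y ∧ pd (ee 1) h (y, 0) = 0 := by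
  let η : ContDiffBump (0 : ℝ) := ⟨r / 4, r / 2, by linarith, by linarith⟩
  have hs : ContDiff ℝ ∞ fun p : P => β p.1 * η p.2 :=
    (h1.comp contDiff_fst).mul (η.contDiff.comp contDiff_snd)
  have ht : tsupport (fun p : P => β p.1 * η p.2) ⊆ tsupport β ×ˢ tsupport η :=
    closure_minimal (fun p hp => ⟨subset_tsupport _ (left_ne_zero_of_mul hp),
      subset_tsupport _ (right_ne_zero_of_mul hp)⟩) ((isClosed_tsupport _).prod (isClosed_tsupport _))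
  have h0 : η 0 = 1 := η.one_of_mem_closedBall (Metric.mem_closedBall_self η.rIn_pos.le)
  refine ⟨_, ⟨hs, (IsCompact.prod h2 η.hasCompactSupport).of_isClosed_subset (isClosed_tsupport _)
    ht, ht.trans (prod_mono h3 ?_)⟩, fun y => ⟨HD.pd_eq ?_ (sm_diff hs _), HD.pd_eq ?_ (sm_diff hs _)⟩⟩
  · rw [η.tsupport_eq, Real.closedBall_eq_Icc]
    exact Icc_subset_Ioo (by simp [η]; linarith) (by simp [η]; linarith)
  · have := (h1.differentiable (by simp) (y + 0)).hasDerivAt.comp (0 : ℝ)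
      ((hasDerivAt_id (0 : ℝ)).const_add y)
    simpa [HD, ee, h0, Function.comp_def] using this
  · have := ((hasDerivAt_const (0 : ℝ) (1 : ℝ)).congr_of_eventuallyEq
      η.eventuallyEq_one).const_mul (β y)
    simpa [HD, ee] using this

end Tr

theorem rowTr : OfTr := by
  intro hM hZ hG γ r w G dw dY dS dYY dYS hγ hr hw h hg
  choose t₀ t₁ T a0 a1 iT hT eT using fun j =>
    Tr.one hZ hγ hr (hw.h1 j) (h j).1 (h j).2.1 (h j).2.2.1 (h j).2.2.2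
  have e : ∀ ζ : Fin 2 → P → ℝ, (∀ j, Test (Q r) (ζ j)) →
      di γ dw ζ = ip G ζ - ∑ j, ∫ y in Ioo (-r) r, T j y * ζ j (y, 0) := fun ζ hζ => by
    rw [di, ip, ← Finset.sum_sub_distrib]
    exact Finset.sum_congr rfl fun j _ => eT j _ (hζ j)
  obtain ⟨c, hc⟩ := hG.1 _ _ _ (iT 0) fun β h1 h2 h3 => by
    obtain ⟨k, k1, k2⟩ := Tr.ext hr h1 h2 h3
    have := e (grad γ k) fun j => k1.dd hγ j
    rw [hg k k1, eq_comm, sub_eq_self] at this
    simpa [grad, dd0, dd1, k2] using this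
  have r0 := (h 0).2.2.2
  have r1 := (h 1).2.2.2
  have m00 := (hw.h1 0).md 0
  have m11 := (hw.h1 1).md 1
  have sM := (r0.m 0).2.1.add (r1.m 1).2.1
  have b1 := (hZ r _ _ hr m00 (r0.m 0).2.1).2.2.2.2.1 _ _ _ _ (fun _ => 1) (fun _ => 1)
    (r1.m 1).2.1 (a0 0) (a1 1)
  simp only [one_mul] at b1
  have b2 : Van (Qp 0 r) fun p => dS 0 0 p + dS 1 1 p :=
    ((r0.s 0).add (r1.s 1) m00 (r0.m 0).2.1 m11 (r1.m 1).2.1).van (isOpen_Qp 0 r) sM
      (hw.dv.mono fun _ a _ => a)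
  have b3 := (hZ r _ _ hr M2.zero M2.zero).2.2.1 _ (fun _ => 0)
    ((hZ r _ _ hr (m00.add m11) sM).2.2.2.1 (fun _ => 0) (fun _ => 0) _ b1 (by
      filter_upwards [hw.dv, b2] with p a b hp using ⟨a, b hp⟩))
    (Eventually.of_forall fun p _ => by simp)
  obtain ⟨C, -, hC, -⟩ := hM (-r) r 0 r
  have b4 := hC _ _ (r0.m 1).2.1 (r0.m 1).2.2.2 (Qp_zero hr.le ▸ r0.ys 1)
  refine ⟨-c, √(C * (nm (dS 0 1) ^ 2 + nm (dYS 0 1) ^ 2)), ?_, fun h0 ζ hζ => ?_⟩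
  · have q := Measure.quasiMeasurePreserving_fst (μ := (volume : Measure ℝ))
      (ν := (volume : Measure ℝ))
    filter_upwards [(hZ r _ _ hr ((hw.h1 0).md 1) (r0.m 1).2.1).2.2.2.2.2.1 _ (a1 0), q.ae b4,
      q.ae hc, q.ae (hT 0)] with p k1 k2 k3 k4 hp
    have hy : p.1 ∈ Ioo (-r) r := hp.1.1
    have hs : 0 < p.2 := hp.2
    have k5 : -dw 0 1 p - -c / (1 + deriv γ p.1 ^ 2) = -(dw 0 1 p - t₁ 0 p.1) := by
      rw [← k3 hy, (k4 hy).2]
      field_simp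
      ring
    rw [k5, abs_neg, mul_comm, ← Real.sqrt_mul hs.le]
    exact Real.abs_le_sqrt ((k1 hp).trans (mul_le_mul_of_nonneg_left (k2 hy) hs.le))
  · have k0 : ∀ j, ∫ y in Ioo (-r) r, T j y * ζ j (y, 0) = 0 := fun j => by
      refine setIntegral_eq_zero_of_ae_eq_zero ?_
      filter_upwards [hc, hT 0, hT 1, b3] with y k1 k2 k3 k4 hy
      have k5 : T 0 y = 0 := (k1 hy).trans (neg_eq_zero.1 h0)
      have k6 : t₁ 0 y = 0 :=
        (mul_eq_zero.1 ((k2 hy).2.symm.trans k5)).resolve_left (by positivity)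
      have k7 : t₁ 1 y = 0 := by linear_combination k4 hy - (k2 hy).1 + deriv γ y * k6
      fin_cases j
      · simp [k5]
      · simp [(k3 hy).2, k7]
    rw [e ζ hζ, Finset.sum_eq_zero fun j _ => k0 j, sub_zero]

end Pool.Agent.MP_ed9623_an.H77
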